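import Pool.Agent.Y742.CN.Stm

/-!
# The tangent property for one more leaf
-/

set_option autoImplicit false

namespace Pool.Agent.Y363.CN

open Pool.Agent.Y742.CN

/-- A sum of products of elements of the small field with values of a derivation of the large
field vanishes as soon as all its images under linear functionals vanish. -/
theorem dual_zero {Ω K M M' : Type} [Field Ω] [Field K] [Algebra Ω K] [Field M] [Algebra Ω M]
    [Field M'] [Algebra Ω M'] (j : M →ₐ[Ω] M') (s e : K →ₐ[Ω] M)
    (g : Submodule K (Derivation Ω K K)) (hT : Tgt g s e) {m : ℕ} (u y : Fin m → K)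
    (hu : Null g u y) (d' : Derivation Ω M' M') (hd : ∀ a, d' (j (s a)) = 0) :
    ∑ k, j (e (u k)) * d' (j (e (y k))) = 0 := by
  letI : Algebra M M' := j.toRingHom.toAlgebra
  have hsm : ∀ (a : M) (b : M'), a • b = j a * b := fun a b => rfl
  haveI : IsScalarTower Ω M M' := IsScalarTower.of_algebraMap_eq fun c => (j.commutes c).symm
  rw [← Module.forall_dual_apply_eq_zero_iff M]
  intro φ
  let dl : M →ₗ[Ω] M := (φ.restrictScalars Ω) ∘ₗ (d' : M' →ₗ[Ω] M') ∘ₗ j.toLinearMap
  have hdl : ∀ a, dl a = φ (d' (j a)) := fun a => rfl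
  let dφ : Derivation Ω M M := Derivation.mk' dl (by
    intro a b
    rw [hdl, hdl, hdl, map_mul, Derivation.leibniz, map_add, smul_eq_mul, smul_eq_mul,
      ← hsm, ← hsm, map_smul, map_smul])
  have hdφ : ∀ a, dφ a = φ (d' (j a)) := fun a => rfl
  have h1 := hT m u y hu dφ (fun a => by rw [hdφ, hd, map_zero])
  rw [map_sum, ← h1]
  refine Finset.sum_congr rfl fun k _ => ?_
  rw [hdφ, ← hsm, map_smul, smul_eq_mul]

theorem sStep (hG : SGenerate) : Pool.Agent.Y742.CN.SStep := by
  intro Ω K _ _ _ _ n x hx g hg D hD hA M M' _ _ _ _ j s e e' hT hje q f h hN d' hd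
  obtain ⟨r, m, c, u, y, hy, hu, hnu, hsum⟩ := hG Ω K n x hx g hg D hD hA q f h hN
  have h1 := hsum M' (e' : K →+* M') (fun a => d' (e' a)) ⟨fun a b => by
    rw [map_add, map_add], fun a b => by
    rw [map_mul, Derivation.leibniz]
    rfl, fun c => by
    rw [AlgHom.commutes, Derivation.map_algebraMap]⟩
  refine h1.trans ?_
  refine Finset.sum_eq_zero fun l _ => ?_
  have h2 := dual_zero j s e g hT (u l) y (hnu l) d' hd
  have h3 : ∑ k, (e' : K →+* M') (u l k) * d' (e' (y k)) = 0 := by
    rw [← h2]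
    refine Finset.sum_congr rfl fun k _ => ?_
    rw [RingHom.coe_coe, hje _ (hu l k), hje _ (hy k)]
  rw [h3, mul_zero]

end Pool.Agent.Y363.CN
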